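import Pool.Agent.Lib.MP_011f3a_lc.LM.K.LimB

/-!
# A set of cardinality `𝔠` is not contained in an intermediate model (module E-BIG)

`InX X c x`: `c` forces that `x` belongs to `X`. Let `ε < τ`, `p' ≤ p`, and suppose that there are no `q ≤ p'`, `x` as required. `of_cardC` gives `b`. For `a ∈ NmC md ε ℕ` let `y_a = rb fun G => ev a (rs ε G)` and `z_a G = {n | mtv (b y_a n) G}`: at most `𝔠` reals (`card_NmC`), `exists_new` gives `y`. By `Asg` some `c₁ ≤ p'`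
and `x` have `Fo c₁ (bmem x X)` and `b x n` is the value of `n ∈ y`. `x ⊆ omega` is forced, so `rn x` is a real with `InX X c₁ (rn x)` (`fo_beq_rb`), hence not `NotIn`: some `c₂ ≤ c₁` forces `rn x = y' (rs ε G)` (`BPr.of_forall` for the event that two reals are equal), `exists_nmC` and `exists_join`: `c₃ ≤ c₂` forces
`rn x = ev a (rs ε G)`, i.e. `beq x y_a`; so `b y_a n` is the value of `n ∈ y` below `c₃`, i.e. `y = z_a`: contradiction.
-/

namespace Pool.Agent.Lib.MP_011f3a_lc.LM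

open Pool.Agent.Lib.MP_4d8715_gt.KR BSet Cardinal

variable {Ω : Type} [LinearOrder Ω] [WellFoundedLT Ω] {md : Md} {τ : Ω} {p : Cn Ω md τ} {X : BSet (RO (Cn Ω md τ))}

/-- `c` forces that the real `x` belongs to `X` -/
def InX (X : BSet (RO (Cn Ω md τ))) (c : Cn Ω md τ) (x : Flt (Cn Ω md τ) → Set ℕ) : Prop := Fo c (bmem (rb x) X)

theorem inH_of_cardC (h : Om2 τ) (hX : Fo p (Lb.Points omega X)) (hc : Fo p (Lb.CardC omega X)) :
    InH (InX X) p := by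
  refine ⟨fun c c' x hcc hx => Fo.mono hx hcc, fun ε hε p' hp' => ?_⟩
  by_contra hcon
  obtain ⟨b, hb, hA⟩ := of_cardC (hc.mono hp')
  have hbr : ∀ a : NmC md ε ℕ, BR fun G : Flt (Cn Ω md τ) => ev a.1 (rs ε G) := fun a n =>
    BPr.proj hε.le (BPr.mt (a.1 n))
  obtain ⟨y, hy, hnew⟩ := exists_new h (card_NmC h hε ℕ)
    (fun (a : NmC md ε ℕ) (G : Flt (Cn Ω md τ)) => {n | mtv (b (rb fun G => ev a.1 (rs ε G)) n) G})
    (fun a n => bpr_mtv _)
  obtain ⟨c₁, hc₁, x, hx, hxn⟩ := hA y hy p' le_rfl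
  have hsub : Fo c₁ (bsub x omega) := by
    unfold Lb.Points at hX
    rw [fo_iInf] at hX
    have h1 := hX x
    rw [fo_himp] at h1
    exact h1 c₁ (hc₁.trans hp') hx
  have hin : InX X c₁ (rn x) := fo_ext (ext_bmem_left X) (fo_beq_rb hsub) hx
  have hnot : ¬ NotIn ε c₁ (rn x) := fun hN => hcon ⟨c₁, hc₁, rn x, br_rn x, hin, hN⟩
  unfold NotIn at hnot
  push Not at hnot
  obtain ⟨y', hy', hfa⟩ := hnot
  have hΨ : BPr fun G : Flt (Cn Ω md τ) => rn x G = y' (rs ε G) := by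
    have h1 : BPr fun G : Flt (Cn Ω md τ) => ∀ n, (n ∈ rn x G ↔ n ∈ y' (rs ε G)) := by
      refine BPr.all fun n => ?_
      have h2 := br_rn x n
      have h3 : BPr fun G : Flt (Cn Ω md τ) => n ∈ y' (rs ε G) := BPr.proj hε.le (hy' n)
      exact ((h2.imp h3).and (h3.imp h2)).congr fun G => ⟨fun h4 => ⟨h4.1, h4.2⟩, fun h4 => ⟨h4.1, h4.2⟩⟩
    exact h1.congr fun G => Set.ext_iff.symm
  have hex : ∃ c₂ ≤ c₁, FA c₂ fun G => rn x G = y' (rs ε G) := by
    by_contra h1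
    push Not at h1
    refine hfa (hΨ.not.of_forall fun v hv h2 => h1 v hv (h2.imp fun G _ h3 => not_not.1 h3))
  obtain ⟨c₂, hc₂, hfa₂⟩ := hex
  obtain ⟨v, hv, a, ha, hva⟩ := exists_nmC hy' (tr ε c₂)
  obtain ⟨c₃, hc₃, -, hc₃₂, -⟩ := exists_join hε.le c₂ v hv
  rw [← hc₃] at hva
  have h1 : FA c₃ fun G => rn x G = ev a (rs ε G) :=
    (hfa₂.mono hc₃₂).imp₂ (FA.proj hε.le hva) fun G _ h2 h3 => h2.trans h3
  have h2 : FA c₃ fun G => rn x G = rn (rb fun G => ev a (rs ε G)) G :=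
    h1.imp₂ (rn_rb (hbr ⟨a, ha⟩) c₃) fun G _ h3 h4 => h3.trans h4.symm
  have hc₃₁ : c₃ ≤ c₁ := hc₃₂.trans hc₂
  have h3 : Fo c₃ (beq x (rb fun G => ev a (rs ε G))) := by
    refine (fo_beq_iff (hsub.mono hc₃₁) ?_).2 h2
    rw [sub_rb]
    exact fo_top
  have h4 : ∀ n, FA c₃ fun G => (mtv (b (rb fun G => ev a (rs ε G)) n) G ↔ n ∈ y G) := by
    intro n
    have h5 : Fo c₃ (iffB (b (rb fun G => ev a (rs ε G)) n) (vle fun G => n ∈ y G)) :=
      fo_ext (ψ := fun z => iffB (b z n) (vle fun G => n ∈ y G)) ((hb n).iffB (ext_const _)) h3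
        ((hxn n).mono hc₃₁)
    have h6 : vle (mtv (b (rb fun G => ev a (rs ε G)) n)) = b (rb fun G => ev a (rs ε G)) n := vle_mtv _
    rw [← h6, ← vle_iff (bpr_mtv _) (hy n), fo_vle] at h5
    exact h5
  refine FA.not_false ((FA.all h4).imp₂ (hnew ⟨a, ha⟩ c₃) fun G _ h5 h6 => h6 ?_)
  exact Set.ext fun n => (h5 n).symm

end Pool.Agent.Lib.MP_011f3a_lc.LM
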