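import Mathlib

/-!
# The statement, read in a structure for the language of set theory

`M` is a type and `E : M → M → Prop` a binary relation, read as membership. All definitions below only
quantify over the elements of `M`. They express the usual notions when `(M, E)` is a model of ZFC.
`w` is the set of the natural numbers, and the points of the Cantor space are the subsets of `w`; two
points are near if they agree below a large natural number `n` (a natural number is the set of all smaller
natural numbers).
-/

namespace Pool.Agent.Lib.MP_011f3a_lc.LM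

namespace Ms

variable {M : Type*} (E : M → M → Prop)

/-- `x ⊆ y` -/
def Sub (x y : M) : Prop := ∀ z, E z x → E z y

/-- `p = {a, b}` -/
def UPair (p a b : M) : Prop := ∀ z, E z p ↔ (z = a ∨ z = b)

/-- `p` is the ordered pair `(a, b) = {{a}, {a, b}}` -/
def Pair (p a b : M) : Prop := ∃ u v, UPair E u a a ∧ UPair E v a b ∧ UPair E p u v

/-- `(a, b) ∈ f` -/
def App (f a b : M) : Prop := ∃ p, Pair E p a b ∧ E p f

/-- `f` is a function with domain `d` -/
def FunOn (f d : M) : Prop :=
  (∀ p, E p f → ∃ a b, E a d ∧ Pair E p a b) ∧ ∀ a, E a d → ∃ b, ∀ c, App E f a c ↔ c = b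

/-- `f` is a function from `d` to `r` -/
def FunTo (f d r : M) : Prop := FunOn E f d ∧ ∀ a b, App E f a b → E b r

/-- `x` is the empty set -/
def Emp (x : M) : Prop := ∀ z, ¬ E z x

/-- `y = x ∪ {x}` -/
def Suc (y x : M) : Prop := ∀ z, E z y ↔ (E z x ∨ z = x)

/-- `w` contains the empty set and is closed under `x ↦ x ∪ {x}` -/
def Ind (w : M) : Prop := (∀ o, Emp E o → E o w) ∧ ∀ x y, E x w → Suc E y x → E y w

/-- `w` is the set of the natural numbers, the least inductive set -/
def Omega (w : M) : Prop := Ind E w ∧ ∀ w', Ind E w' → Sub E w w'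

/-- `X` is a set of points of the Cantor space -/
def Points (w X : M) : Prop := ∀ x, E x X → Sub E x w

/-- the set `Z` of points has cardinality `𝔠`: some function with domain `Z` takes all points as values -/
def CardC (w Z : M) : Prop := ∃ g, FunOn E g Z ∧ ∀ y, Sub E y w → ∃ x, E x Z ∧ App E g x y

/-- `x` and `y` have the same elements in `n` -/
def Agree (n x y : M) : Prop := ∀ k, E k n → (E k x ↔ E k y)

/-- `X` is a `𝔠`-dense set of points: for all `n` and `a` the set of the `x ∈ X` which agree with `a`
below `n` has cardinality `𝔠` -/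
def DenseC (w X : M) : Prop :=
  Points E w X ∧ ∀ n a, E n w → Sub E a w → ∀ Z, (∀ x, E x Z ↔ E x X ∧ Agree E n x a) → CardC E w Z

/-- `f` is continuous on its domain: for `f x = y` and all `n` there is `m` such that `f x'` agrees with `y`
below `n` for all `x'` in the domain which agree with `x` below `m` -/
def Cont (w f : M) : Prop :=
  ∀ x y n, App E f x y → E n w → ∃ m, E m w ∧ ∀ x' y', App E f x' y' → Agree E m x x' → Agree E n y y'

/-- `R` is the image of `Z` under `f` -/
def Image (f Z R : M) : Prop := ∀ y, E y R ↔ ∃ x, E x Z ∧ App E f x y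

/-- `X` strongly avoids `Y`: for every `Z ⊆ X` of cardinality `𝔠` and every continuous `f` from `Z` to `Y`
the image of `f` does not have cardinality `𝔠` -/
def StrAvoid (w X Y : M) : Prop :=
  ∀ Z f R, Sub E Z X → CardC E w Z → FunTo E f Z Y → Cont E w f → Image E f Z R → ¬ CardC E w R

/-- for all sets `X`, `Y` of points of cardinality `𝔠` there are `Z ⊆ X` of cardinality `𝔠` and a
continuous function from `Z` onto `Y` -/
def AllMap (w : M) : Prop :=
  ∀ X Y, Points E w X → Points E w Y → CardC E w X → CardC E w Y →
    ∃ Z f, Sub E Z X ∧ CardC E w Z ∧ FunTo E f Z Y ∧ Cont E w f ∧ Image E f Z Y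

/-- no `𝔠`-dense set of points strongly avoids a `𝔠`-dense set of points; even more, `AllMap` -/
def NoAvoid : Prop :=
  ∃ w, Omega E w ∧ AllMap E w ∧ ∀ X Y, DenseC E w X → DenseC E w Y → ¬ StrAvoid E w X Y

end Ms

end Pool.Agent.Lib.MP_011f3a_lc.LM
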