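import Pool.Agent.Lib.MP_011f3a_lc.LM.E.Force
import Pool.Agent.Lib.MP_011f3a_lc.LM.E.Stmt
import Pool.Agent.Lib.MP_4d8715_gt.KR.E.Base

/-!
# The formula of the statement, its truth in a structure and its Boolean value (module E-DEEP)

For every definition `P` of `E/Stmt.lean` there are the formula `fP` and its Boolean reading `Kb.P`
(those of the basic notions are in the namespace `Pool.Agent.Lib.MP_4d8715_gt.KR` and were
made for another problem).
-/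

universe u

namespace Pool.Agent.Lib.MP_011f3a_lc.LM

open Pool.Agent.Lib.MP_4d8715_gt.KR BSet

/-! ### Boolean readings -/

namespace Lb

variable {B : Type u} [CompleteBooleanAlgebra B]

/-- set of points -/
def Points (w X : BSet B) : B := ⨅ x, bmem x X ⇨ Kb.Sub x w

/-- cardinality `𝔠` -/
def CardC (w Z : BSet B) : B :=
  ⨆ g, Kb.FunOn g Z ⊓ (⨅ y, Kb.Sub y w ⇨ (⨆ x, bmem x Z ⊓ Kb.App g x y))

/-- the same elements in `n` -/
def Agree (n x y : BSet B) : B := ⨅ k, bmem k n ⇨ iffB (bmem k x) (bmem k y)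

/-- `𝔠`-dense -/
def DenseC (w X : BSet B) : B :=
  Points w X ⊓ (⨅ n, ⨅ a, bmem n w ⇨ Kb.Sub a w ⇨ (⨅ Z, (⨅ x, iffB (bmem x Z) (bmem x X ⊓ Agree n x a)) ⇨ CardC w Z))

/-- continuity -/
def Cont (w f : BSet B) : B :=
  ⨅ x, ⨅ y, ⨅ n, Kb.App f x y ⇨ bmem n w ⇨ (⨆ m, bmem m w ⊓ (⨅ x', ⨅ y', Kb.App f x' y' ⇨ Agree m x x' ⇨ Agree n y y'))

/-- image -/
def Image (f Z R : BSet B) : B := ⨅ y, iffB (bmem y R) (⨆ x, bmem x Z ⊓ Kb.App f x y)

/-- strong avoidance -/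
def StrAvoid (w X Y : BSet B) : B :=
  ⨅ Z, ⨅ f, ⨅ R, Kb.Sub Z X ⇨ CardC w Z ⇨ Kb.FunTo f Z Y ⇨ Cont w f ⇨ Image f Z R ⇨ (CardC w R)ᶜ

/-- continuous maps onto sets of cardinality `𝔠` -/
def AllMap (w : BSet B) : B :=
  ⨅ X, ⨅ Y, Points w X ⇨ Points w Y ⇨ CardC w X ⇨ CardC w Y ⇨
    (⨆ Z, ⨆ f, Kb.Sub Z X ⊓ (CardC w Z ⊓ (Kb.FunTo f Z Y ⊓ (Cont w f ⊓ Image f Z Y))))

/-- the statement -/
def NoAvoid (B : Type u) [CompleteBooleanAlgebra B] : B :=
  ⨆ w : BSet B, Kb.Omega w ⊓ (AllMap w ⊓ (⨅ X, ⨅ Y, DenseC w X ⇨ DenseC w Y ⇨ (StrAvoid w X Y)ᶜ))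

end Lb

/-! ### The formulas -/

namespace LF

open Fml

/-- set of points -/
def fPoints {n : ℕ} (w X : Fin n) : Fml n := all (imp (mem 0 X.succ) (fSub 0 w.succ))

/-- cardinality `𝔠` -/
def fCardC {n : ℕ} (w Z : Fin n) : Fml n :=
  ex (and (fFunOn 0 Z.succ) (all (imp (fSub 0 w.succ.succ) (ex (and (mem 0 Z.succ.succ.succ)
    (fApp (0 : Fin _).succ.succ 0 (0 : Fin _).succ))))))

/-- the same elements in `n` -/
def fAgree {n : ℕ} (m x y : Fin n) : Fml n := all (imp (mem 0 m.succ) (iff (mem 0 x.succ) (mem 0 y.succ)))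

/-- `𝔠`-dense -/
def fDenseC {n : ℕ} (w X : Fin n) : Fml n :=
  and (fPoints w X) (all (all (imp (mem (0 : Fin _).succ w.succ.succ) (imp (fSub 0 w.succ.succ)
    (all (imp (all (iff (mem 0 (0 : Fin _).succ) (and (mem 0 X.succ.succ.succ.succ)
      (fAgree (0 : Fin _).succ.succ.succ 0 (0 : Fin _).succ.succ)))) (fCardC w.succ.succ.succ 0)))))))

/-- continuity -/
def fCont {n : ℕ} (w f : Fin n) : Fml n :=
  all (all (all (imp (fApp f.succ.succ.succ (0 : Fin _).succ.succ (0 : Fin _).succ) (imp (mem 0 w.succ.succ.succ)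
    (ex (and (mem 0 w.succ.succ.succ.succ) (all (all (imp (fApp f.succ.succ.succ.succ.succ.succ (0 : Fin _).succ 0)
      (imp (fAgree (0 : Fin _).succ.succ (0 : Fin _).succ.succ.succ.succ.succ (0 : Fin _).succ)
        (fAgree (0 : Fin _).succ.succ.succ (0 : Fin _).succ.succ.succ.succ 0)))))))))))

/-- image -/
def fImage {n : ℕ} (f Z R : Fin n) : Fml n :=
  all (iff (mem 0 R.succ) (ex (and (mem 0 Z.succ.succ) (fApp f.succ.succ 0 (0 : Fin _).succ))))

/-- strong avoidance -/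
def fStrAvoid {n : ℕ} (w X Y : Fin n) : Fml n :=
  all (all (all (imp (fSub (0 : Fin _).succ.succ X.succ.succ.succ) (imp (fCardC w.succ.succ.succ (0 : Fin _).succ.succ)
    (imp (fFunTo (0 : Fin _).succ (0 : Fin _).succ.succ Y.succ.succ.succ) (imp (fCont w.succ.succ.succ (0 : Fin _).succ)
      (imp (fImage (0 : Fin _).succ (0 : Fin _).succ.succ 0) (neg (fCardC w.succ.succ.succ 0)))))))))

/-- continuous maps onto sets of cardinality `𝔠` -/
def fAllMap {n : ℕ} (w : Fin n) : Fml n :=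
  all (all (imp (fPoints w.succ.succ (0 : Fin _).succ) (imp (fPoints w.succ.succ 0) (imp (fCardC w.succ.succ (0 : Fin _).succ)
    (imp (fCardC w.succ.succ 0) (ex (ex (and (fSub (0 : Fin _).succ (0 : Fin _).succ.succ.succ)
      (and (fCardC w.succ.succ.succ.succ (0 : Fin _).succ) (and (fFunTo 0 (0 : Fin _).succ (0 : Fin _).succ.succ)
        (and (fCont w.succ.succ.succ.succ 0) (fImage 0 (0 : Fin _).succ (0 : Fin _).succ.succ))))))))))))

/-- the statement -/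
def fNoAvoid : Fml 0 :=
  ex (and (fOmega 0) (and (fAllMap 0) (all (all (imp (fDenseC (0 : Fin _).succ.succ (0 : Fin _).succ)
    (imp (fDenseC (0 : Fin _).succ.succ 0) (neg (fStrAvoid (0 : Fin _).succ.succ (0 : Fin _).succ 0))))))))

section Sat2

variable {M : Type*} (E : M → M → Prop)

theorem sat2_fSub {n : ℕ} (x y : Fin n) (v : Fin n → M) : Sat E (fSub x y) v ↔ Ms.Sub E (v x) (v y) :=
  sat_fSub E x y v

theorem sat2_fApp {n : ℕ} (f a b : Fin n) (v : Fin n → M) : Sat E (fApp f a b) v ↔ Ms.App E (v f) (v a) (v b) :=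
  sat_fApp E f a b v

theorem sat2_fFunOn {n : ℕ} (f d : Fin n) (v : Fin n → M) : Sat E (fFunOn f d) v ↔ Ms.FunOn E (v f) (v d) :=
  sat_fFunOn E f d v

theorem sat2_fFunTo {n : ℕ} (f d r : Fin n) (v : Fin n → M) :
    Sat E (fFunTo f d r) v ↔ Ms.FunTo E (v f) (v d) (v r) :=
  sat_fFunTo E f d r v

theorem sat2_fOmega {n : ℕ} (w : Fin n) (v : Fin n → M) : Sat E (fOmega w) v ↔ Ms.Omega E (v w) :=
  sat_fOmega E w v

theorem sat2_fPoints {n : ℕ} (w X : Fin n) (v : Fin n → M) : Sat E (fPoints w X) v ↔ Ms.Points E (v w) (v X) := by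
  simp only [fPoints, Ms.Points, sat_all, sat_ex, sat_imp, sat_and, sat_or, sat_neg, sat_iff, sat_mem, sat_eq, Fin.cons_zero, Fin.cons_succ, ne_eq, sat2_fSub]

theorem sat2_fCardC {n : ℕ} (w Z : Fin n) (v : Fin n → M) : Sat E (fCardC w Z) v ↔ Ms.CardC E (v w) (v Z) := by
  simp only [fCardC, Ms.CardC, sat_all, sat_ex, sat_imp, sat_and, sat_or, sat_neg, sat_iff, sat_mem, sat_eq, Fin.cons_zero, Fin.cons_succ, ne_eq, sat2_fSub, sat2_fApp, sat2_fFunOn]

theorem sat2_fAgree {n : ℕ} (m x y : Fin n) (v : Fin n → M) :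
    Sat E (fAgree m x y) v ↔ Ms.Agree E (v m) (v x) (v y) := by
  simp only [fAgree, Ms.Agree, sat_all, sat_ex, sat_imp, sat_and, sat_or, sat_neg, sat_iff, sat_mem, sat_eq, Fin.cons_zero, Fin.cons_succ, ne_eq]

theorem sat2_fDenseC {n : ℕ} (w X : Fin n) (v : Fin n → M) : Sat E (fDenseC w X) v ↔ Ms.DenseC E (v w) (v X) := by
  simp only [fDenseC, Ms.DenseC, sat_all, sat_ex, sat_imp, sat_and, sat_or, sat_neg, sat_iff, sat_mem, sat_eq, Fin.cons_zero, Fin.cons_succ, ne_eq, sat2_fSub, sat2_fPoints, sat2_fCardC, sat2_fAgree]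

theorem sat2_fCont {n : ℕ} (w f : Fin n) (v : Fin n → M) : Sat E (fCont w f) v ↔ Ms.Cont E (v w) (v f) := by
  simp only [fCont, Ms.Cont, sat_all, sat_ex, sat_imp, sat_and, sat_or, sat_neg, sat_iff, sat_mem, sat_eq, Fin.cons_zero, Fin.cons_succ, ne_eq, sat2_fApp, sat2_fAgree]

theorem sat2_fImage {n : ℕ} (f Z R : Fin n) (v : Fin n → M) :
    Sat E (fImage f Z R) v ↔ Ms.Image E (v f) (v Z) (v R) := by
  simp only [fImage, Ms.Image, sat_all, sat_ex, sat_imp, sat_and, sat_or, sat_neg, sat_iff, sat_mem, sat_eq, Fin.cons_zero, Fin.cons_succ, ne_eq, sat2_fApp]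

theorem sat2_fStrAvoid {n : ℕ} (w X Y : Fin n) (v : Fin n → M) :
    Sat E (fStrAvoid w X Y) v ↔ Ms.StrAvoid E (v w) (v X) (v Y) := by
  simp only [fStrAvoid, Ms.StrAvoid, sat_all, sat_ex, sat_imp, sat_and, sat_or, sat_neg, sat_iff, sat_mem, sat_eq, Fin.cons_zero, Fin.cons_succ, ne_eq, sat2_fSub, sat2_fCardC, sat2_fFunTo, sat2_fCont, sat2_fImage]

theorem sat2_fAllMap {n : ℕ} (w : Fin n) (v : Fin n → M) : Sat E (fAllMap w) v ↔ Ms.AllMap E (v w) := by
  simp only [fAllMap, Ms.AllMap, sat_all, sat_ex, sat_imp, sat_and, sat_or, sat_neg, sat_iff, sat_mem, sat_eq, Fin.cons_zero, Fin.cons_succ, ne_eq, sat2_fSub, sat2_fPoints, sat2_fCardC, sat2_fFunTo, sat2_fCont, sat2_fImage]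

theorem sat2_fNoAvoid : Sat E fNoAvoid ![] ↔ Ms.NoAvoid E := by
  simp only [fNoAvoid, Ms.NoAvoid, sat_all, sat_ex, sat_imp, sat_and, sat_or, sat_neg, sat_iff, sat_mem, sat_eq, Fin.cons_zero, Fin.cons_succ, ne_eq, sat2_fOmega, sat2_fAllMap, sat2_fDenseC, sat2_fStrAvoid]

end Sat2

section bv2

variable {B : Type u} [CompleteBooleanAlgebra B]

theorem bv_fPoints {n : ℕ} (w X : Fin n) (v : Fin n → BSet B) : bv (fPoints w X) v = Lb.Points (v w) (v X) := by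
  simp only [fPoints, Lb.Points, bv_all, bv_ex, bv_imp, bv_and, bv_or, bv_neg, bv_iffB, bv_mem, bv_eq, Fin.cons_zero, Fin.cons_succ, bv_fSub]

theorem bv_fCardC {n : ℕ} (w Z : Fin n) (v : Fin n → BSet B) : bv (fCardC w Z) v = Lb.CardC (v w) (v Z) := by
  simp only [fCardC, Lb.CardC, bv_all, bv_ex, bv_imp, bv_and, bv_or, bv_neg, bv_iffB, bv_mem, bv_eq, Fin.cons_zero, Fin.cons_succ, bv_fSub, bv_fApp, bv_fFunOn]

theorem bv_fAgree {n : ℕ} (m x y : Fin n) (v : Fin n → BSet B) :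
    bv (fAgree m x y) v = Lb.Agree (v m) (v x) (v y) := by
  simp only [fAgree, Lb.Agree, bv_all, bv_ex, bv_imp, bv_and, bv_or, bv_neg, bv_iffB, bv_mem, bv_eq, Fin.cons_zero, Fin.cons_succ]

theorem bv_fDenseC {n : ℕ} (w X : Fin n) (v : Fin n → BSet B) : bv (fDenseC w X) v = Lb.DenseC (v w) (v X) := by
  simp only [fDenseC, Lb.DenseC, bv_all, bv_ex, bv_imp, bv_and, bv_or, bv_neg, bv_iffB, bv_mem, bv_eq, Fin.cons_zero, Fin.cons_succ, bv_fSub, bv_fPoints, bv_fCardC, bv_fAgree]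

theorem bv_fCont {n : ℕ} (w f : Fin n) (v : Fin n → BSet B) : bv (fCont w f) v = Lb.Cont (v w) (v f) := by
  simp only [fCont, Lb.Cont, bv_all, bv_ex, bv_imp, bv_and, bv_or, bv_neg, bv_iffB, bv_mem, bv_eq, Fin.cons_zero, Fin.cons_succ, bv_fApp, bv_fAgree]

theorem bv_fImage {n : ℕ} (f Z R : Fin n) (v : Fin n → BSet B) :
    bv (fImage f Z R) v = Lb.Image (v f) (v Z) (v R) := by
  simp only [fImage, Lb.Image, bv_all, bv_ex, bv_imp, bv_and, bv_or, bv_neg, bv_iffB, bv_mem, bv_eq, Fin.cons_zero, Fin.cons_succ, bv_fApp]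

theorem bv_fStrAvoid {n : ℕ} (w X Y : Fin n) (v : Fin n → BSet B) :
    bv (fStrAvoid w X Y) v = Lb.StrAvoid (v w) (v X) (v Y) := by
  simp only [fStrAvoid, Lb.StrAvoid, bv_all, bv_ex, bv_imp, bv_and, bv_or, bv_neg, bv_iffB, bv_mem, bv_eq, Fin.cons_zero, Fin.cons_succ, bv_fSub, bv_fCardC, bv_fFunTo, bv_fCont, bv_fImage]

theorem bv_fAllMap {n : ℕ} (w : Fin n) (v : Fin n → BSet B) : bv (fAllMap w) v = Lb.AllMap (v w) := by
  simp only [fAllMap, Lb.AllMap, bv_all, bv_ex, bv_imp, bv_and, bv_or, bv_neg, bv_iffB, bv_mem, bv_eq, Fin.cons_zero, Fin.cons_succ, bv_fSub, bv_fPoints, bv_fCardC, bv_fFunTo, bv_fCont, bv_fImage]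

theorem bv_fNoAvoid : bv fNoAvoid (![] : Fin 0 → BSet B) = Lb.NoAvoid B := by
  simp only [fNoAvoid, Lb.NoAvoid, bv_all, bv_ex, bv_imp, bv_and, bv_or, bv_neg, bv_iffB, bv_mem, bv_eq, Fin.cons_zero, Fin.cons_succ, bv_fOmega, bv_fAllMap, bv_fDenseC, bv_fStrAvoid]

end bv2

end LF

/-! ### The Boolean readings respect equality -/

namespace Lb

variable {B : Type u} [CompleteBooleanAlgebra B]

theorem ext_CardC_Z (w : BSet B) : Ext (fun Z : BSet B => CardC w Z) := by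
  have h := Fml.ext_bv (B := B) (LF.fCardC (1 : Fin 2) (0 : Fin 2)) ![w]
  simp only [LF.bv_fCardC] at h
  exact h

theorem ext_Points_X (w : BSet B) : Ext (fun X : BSet B => Points w X) := by
  have h := Fml.ext_bv (B := B) (LF.fPoints (1 : Fin 2) (0 : Fin 2)) ![w]
  simp only [LF.bv_fPoints] at h
  exact h

theorem ext_Agree_n (x y : BSet B) : Ext (fun n : BSet B => Agree n x y) := by
  have h := Fml.ext_bv (B := B) (LF.fAgree (0 : Fin 3) (1 : Fin 3) (2 : Fin 3)) ![x, y]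
  simp only [LF.bv_fAgree] at h
  exact h

theorem ext_Agree_x (n y : BSet B) : Ext (fun x : BSet B => Agree n x y) := by
  have h := Fml.ext_bv (B := B) (LF.fAgree (1 : Fin 3) (0 : Fin 3) (2 : Fin 3)) ![n, y]
  simp only [LF.bv_fAgree] at h
  exact h

theorem ext_Agree_y (n x : BSet B) : Ext (fun y : BSet B => Agree n x y) := by
  have h := Fml.ext_bv (B := B) (LF.fAgree (1 : Fin 3) (2 : Fin 3) (0 : Fin 3)) ![n, x]
  simp only [LF.bv_fAgree] at h
  exact h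

end Lb

end Pool.Agent.Lib.MP_011f3a_lc.LM

/-!
# Functions given by relations (module E-FUN)

`relG X Y ψ` is the set of the pairs `(a, b)`, `a ∈ X`, `b ∈ Y`, `ψ a b`, and `domG X Y ψ` its domain. `App_relG`: `Kb.App_eq`, `beq_opair`, `iSup_mem`-type computations as in `MP_8f49b0_lc/MM/E/SeqN.lean`, `KR/Z/Quant.lean` (`bmem_sep`).
-/


namespace Pool.Agent.Lib.MP_011f3a_lc.LM

open Pool.Agent.Lib.MP_4d8715_gt.KR BSet

/-- the set of the pairs -/
def relG {B : Type u} [CompleteBooleanAlgebra B] (X Y : BSet B) (ψ : BSet B → BSet B → B) : BSet B :=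
  mk (X.type × Y.type) (fun i => opair (X.func i.1) (Y.func i.2)) fun i => X.val i.1 ⊓ (Y.val i.2 ⊓ ψ (X.func i.1) (Y.func i.2))

/-- its domain -/
def domG {B : Type u} [CompleteBooleanAlgebra B] (X Y : BSet B) (ψ : BSet B → BSet B → B) : BSet B :=
  sep X fun x => ⨆ y, bmem y Y ⊓ ψ x y

theorem App_relG {B : Type u} [CompleteBooleanAlgebra B] (X Y : BSet B) {ψ : BSet B → BSet B → B} (h1 : ∀ b, Ext fun a => ψ a b)
    (h2 : ∀ a, Ext fun b => ψ a b) (a b : BSet B) : Kb.App (relG X Y ψ) a b = bmem a X ⊓ (bmem b Y ⊓ ψ a b) := by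
  rw [Kb.App_eq, relG, basic_bmem_mk]
  refine le_antisymm (iSup_le fun i => ?_) ?_
  · rw [beq_opair]
    have e1 : X.val i.1 ⊓ (Y.val i.2 ⊓ ψ (X.func i.1) (Y.func i.2)) ⊓
        (beq a (X.func i.1) ⊓ beq b (Y.func i.2)) ≤ ψ (X.func i.1) (Y.func i.2) :=
      inf_le_left.trans (inf_le_right.trans inf_le_right)
    have e2 : X.val i.1 ⊓ (Y.val i.2 ⊓ ψ (X.func i.1) (Y.func i.2)) ⊓
        (beq a (X.func i.1) ⊓ beq b (Y.func i.2)) ≤ beq a (X.func i.1) :=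
      inf_le_right.trans inf_le_left
    have e3 : X.val i.1 ⊓ (Y.val i.2 ⊓ ψ (X.func i.1) (Y.func i.2)) ⊓
        (beq a (X.func i.1) ⊓ beq b (Y.func i.2)) ≤ beq b (Y.func i.2) :=
      inf_le_right.trans inf_le_right
    refine le_inf ?_ (le_inf ?_ ?_)
    · rw [bmem_def]
      exact le_iSup_of_le i.1 (le_inf (inf_le_left.trans inf_le_left) e2)
    · rw [bmem_def]
      exact le_iSup_of_le i.2 (le_inf (inf_le_left.trans (inf_le_right.trans inf_le_left)) e3)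
    · have e4 := h1 (Y.func i.2) (X.func i.1) a
      have e5 := h2 a (Y.func i.2) b
      rw [beq_symm] at e4 e5
      exact (le_inf e3 ((le_inf e2 e1).trans e4)).trans e5
  · rw [bmem_def, bmem_def, iSup_inf_eq]
    refine iSup_le fun i => ?_
    rw [iSup_inf_eq, inf_iSup_eq]
    refine iSup_le fun j => ?_
    refine le_iSup_of_le (i, j) ?_
    rw [beq_opair]
    have e2 : X.val i ⊓ beq a (X.func i) ⊓ (Y.val j ⊓ beq b (Y.func j) ⊓ ψ a b) ≤
        beq a (X.func i) := inf_le_left.trans inf_le_right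
    have e3 : X.val i ⊓ beq a (X.func i) ⊓ (Y.val j ⊓ beq b (Y.func j) ⊓ ψ a b) ≤
        beq b (Y.func j) := inf_le_right.trans (inf_le_left.trans inf_le_right)
    have e1 : X.val i ⊓ beq a (X.func i) ⊓ (Y.val j ⊓ beq b (Y.func j) ⊓ ψ a b) ≤ ψ a b :=
      inf_le_right.trans inf_le_right
    refine le_inf (le_inf (inf_le_left.trans inf_le_left)
      (le_inf (inf_le_right.trans (inf_le_left.trans inf_le_left)) ?_)) (le_inf e2 e3)
    have e4 := h1 b a (X.func i)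
    have e5 := h2 (X.func i) b (Y.func j)
    exact (le_inf e3 ((le_inf e2 e1).trans e4)).trans e5

theorem bmem_domG {B : Type u} [CompleteBooleanAlgebra B] (X Y : BSet B) {ψ : BSet B → BSet B → B} (h1 : ∀ b, Ext fun a => ψ a b)
    (a : BSet B) : bmem a (domG X Y ψ) = bmem a X ⊓ ⨆ y, bmem y Y ⊓ ψ a y := by
  refine bmem_sep X _ ?_ a
  intro x y
  rw [inf_iSup_eq]
  refine iSup_le fun z => le_iSup_of_le z ?_
  refine le_inf (inf_le_right.trans inf_le_left) ?_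
  exact (le_inf inf_le_left (inf_le_right.trans inf_le_right)).trans (h1 z x y)

variable {P : Type} [Preorder P] {c : P} {X Y : BSet (RO P)} {ψ : BSet (RO P) → BSet (RO P) → RO P}

theorem fo_FunTo_relG (h1 : ∀ b, Ext fun a => ψ a b) (h2 : ∀ a, Ext fun b => ψ a b)
    (hs : ∀ c' ≤ c, ∀ a b b', Fo c' (bmem a X) → Fo c' (bmem b Y) → Fo c' (bmem b' Y) → Fo c' (ψ a b) → Fo c' (ψ a b') →
      Fo c' (beq b b')) : Fo c (Kb.FunTo (relG X Y ψ) (domG X Y ψ) Y) := by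
  unfold Kb.FunTo Kb.FunOn
  rw [fo_inf, fo_inf]
  refine ⟨⟨?_, ?_⟩, ?_⟩
  · rw [fo_iInf]
    intro p
    rw [fo_himp]
    intro c' _ hp
    refine hp.of_le ?_
    rw [relG, basic_bmem_mk]
    refine iSup_le fun i => ?_
    refine le_iSup_of_le (X.func i.1) (le_iSup_of_le (Y.func i.2) ?_)
    rw [Kb.Pair_eq, bmem_domG X Y h1]
    refine le_inf (le_inf ?_ ?_) inf_le_right
    · exact inf_le_left.trans (inf_le_left.trans (val_le_bmem X i.1))
    · refine le_iSup_of_le (Y.func i.2) ?_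
      refine inf_le_left.trans (inf_le_right.trans ?_)
      exact inf_le_inf_right _ (val_le_bmem Y i.2)
  · rw [fo_iInf]
    intro a
    rw [fo_himp]
    intro c' hc' ha
    rw [bmem_domG X Y h1, fo_inf] at ha
    obtain ⟨ha1, ha2⟩ := ha
    rw [fo_iSup] at ha2 ⊢
    intro c1 hc1
    obtain ⟨c2, hc2, b, hb⟩ := ha2 c1 hc1
    rw [fo_inf] at hb
    refine ⟨c2, hc2, b, ?_⟩
    rw [fo_iInf]
    intro d
    rw [fo_iffB]
    intro e he
    rw [App_relG X Y h1 h2, fo_inf, fo_inf]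
    have hec : e ≤ c := he.trans (hc2.trans (hc1.trans hc'))
    have hea : Fo e (bmem a X) := ha1.mono (he.trans (hc2.trans hc1))
    constructor
    · rintro ⟨-, h3, h4⟩
      exact hs e hec a d b hea h3 (hb.1.mono he) h4 (hb.2.mono he)
    · intro h3
      have h4 := fo_beq_symm h3
      exact ⟨hea, fo_ext (quant_ext_bmem Y) h4 (hb.1.mono he), fo_ext (h2 a) h4 (hb.2.mono he)⟩
  · rw [fo_iInf]
    intro a
    rw [fo_iInf]
    intro b
    rw [fo_himp]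
    intro c' _ h3
    rw [App_relG X Y h1 h2, fo_inf, fo_inf] at h3
    exact h3.2.1

theorem fo_sub_domG (h1 : ∀ b, Ext fun a => ψ a b) : Fo c (Kb.Sub (domG X Y ψ) X) := by
  unfold Kb.Sub
  rw [fo_iInf]
  intro z
  rw [fo_himp]
  intro c' _ h3
  rw [bmem_domG X Y h1, fo_inf] at h3
  exact h3.1

theorem fo_Image_relG (h1 : ∀ b, Ext fun a => ψ a b) (h2 : ∀ a, Ext fun b => ψ a b)
    (ho : ∀ c' ≤ c, ∀ b, Fo c' (bmem b Y) → ∃ c'' ≤ c', ∃ a, Fo c'' (bmem a X) ∧ Fo c'' (ψ a b)) :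
    Fo c (Lb.Image (relG X Y ψ) (domG X Y ψ) Y) := by
  unfold Lb.Image
  rw [fo_iInf]
  intro y
  rw [fo_iffB]
  intro c' hc'
  constructor
  · intro hy
    rw [fo_iSup]
    intro c1 hc1
    obtain ⟨c2, hc2, a, h3, h4⟩ := ho c1 (hc1.trans hc') y (hy.mono hc1)
    refine ⟨c2, hc2, a, ?_⟩
    have hy2 : Fo c2 (bmem y Y) := hy.mono (hc2.trans hc1)
    rw [fo_inf, App_relG X Y h1 h2, fo_inf, fo_inf, bmem_domG X Y h1, fo_inf]
    refine ⟨⟨h3, ?_⟩, h3, hy2, h4⟩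
    exact Fo.of_le (fo_inf.2 ⟨hy2, h4⟩) (le_iSup (fun y => bmem y Y ⊓ ψ a y) y)
  · intro h3
    rw [fo_iSup] at h3
    refine fo_reg fun c1 hc1 => ?_
    obtain ⟨c2, hc2, x, h4⟩ := h3 c1 hc1
    rw [fo_inf, App_relG X Y h1 h2, fo_inf, fo_inf] at h4
    exact ⟨c2, hc2, h4.2.2.1⟩

end Pool.Agent.Lib.MP_011f3a_lc.LM
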