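import Pool.Agent.Lib.MP_011f3a_lc.LM.A.Defs
import Pool.Agent.Lib.MP_4d8715_gt.KR.R.Defs
import Pool.Agent.Lib.MP_4d8715_gt.KR.R.RO
import Pool.Agent.Lib.MP_4d8715_gt.KR.Z.Full

/-!
# Forcing and Boolean values (module E-FORCE)

`Fo c x`: the condition `c` forces (belongs to) the Boolean value `x` in the complete Boolean algebra `RO P`. All lemmas follow from
`RO.mem_inf`, `RO.mem_himp`, ... (`KR/R/RO.lean`); compare `MP_8f49b0_lc/MM/E/Force.lean`.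
-/

namespace Pool.Agent.Lib.MP_011f3a_lc.LM

open Pool.Agent.Lib.MP_4d8715_gt.KR

variable {P : Type} [Preorder P] {c c' : P} {x y : RO P}

/-- the condition `c` forces `x` -/
def Fo (c : P) (x : RO P) : Prop := c ∈ x.carrier

theorem Fo.of_le (h : Fo c x) (hxy : x ≤ y) : Fo c y := RO.le_def.1 hxy _ h

theorem Fo.mono (h : Fo c x) (hc : c' ≤ c) : Fo c' x := x.down _ h _ hc

theorem fo_reg (h : ∀ c' ≤ c, ∃ c'' ≤ c', Fo c'' x) : Fo c x :=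
  x.reg _ fun q hq => by
    obtain ⟨r, hr, hr2⟩ := h q hq
    exact ⟨r, hr, hr2⟩

theorem fo_top : Fo c (⊤ : RO P) := RO.mem_top _

theorem fo_bot : ¬ Fo c (⊥ : RO P) := fun h => RO.mem_bot _ h

theorem fo_inf : Fo c (x ⊓ y) ↔ Fo c x ∧ Fo c y := RO.mem_inf

theorem fo_sup : Fo c (x ⊔ y) ↔ ∀ c' ≤ c, ∃ c'' ≤ c', Fo c'' x ∨ Fo c'' y := RO.mem_sup

theorem fo_compl : Fo c xᶜ ↔ ∀ c' ≤ c, ¬ Fo c' x := RO.mem_compl

theorem fo_himp : Fo c (x ⇨ y) ↔ ∀ c' ≤ c, Fo c' x → Fo c' y := RO.mem_himp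

theorem fo_iffB : Fo c (iffB x y) ↔ ∀ c' ≤ c, (Fo c' x ↔ Fo c' y) := by
  unfold iffB
  rw [fo_inf, fo_himp, fo_himp]
  exact ⟨fun h c' hc' => ⟨h.1 c' hc', h.2 c' hc'⟩,
    fun h => ⟨fun c' hc' => (h c' hc').1, fun c' hc' => (h c' hc').2⟩⟩

theorem fo_iInf {ι : Sort*} {f : ι → RO P} : Fo c (⨅ i, f i) ↔ ∀ i, Fo c (f i) := RO.mem_iInf

theorem fo_iSup {ι : Sort*} {f : ι → RO P} : Fo c (⨆ i, f i) ↔ ∀ c' ≤ c, ∃ c'' ≤ c', ∃ i, Fo c'' (f i) := RO.mem_iSup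

theorem le_iff_fo : x ≤ y ↔ ∀ c, Fo c x → Fo c y := RO.le_def

theorem eq_iff_fo : x = y ↔ ∀ c, Fo c x ↔ Fo c y := by
  constructor
  · rintro rfl c
    exact Iff.rfl
  · intro h
    exact le_antisymm (le_iff_fo.2 fun c hc => (h c).1 hc) (le_iff_fo.2 fun c hc => (h c).2 hc)

theorem eq_top_iff_fo : x = ⊤ ↔ ∀ c, Fo c x := by
  constructor
  · rintro rfl c
    exact fo_top
  · intro h
    exact le_antisymm le_top (le_iff_fo.2 fun c _ => h c)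

theorem fo_decide (x : RO P) (c : P) : ∃ c' ≤ c, Fo c' x ∨ Fo c' xᶜ := by
  by_cases h : ∃ c' ≤ c, Fo c' x
  · obtain ⟨c', h1, h2⟩ := h
    exact ⟨c', h1, Or.inl h2⟩
  · exact ⟨c, le_rfl, Or.inr (fo_compl.2 fun c' hc' h1 => h ⟨c', hc', h1⟩)⟩

/-- `ψ` respects equality -/
theorem fo_ext {ψ : BSet (RO P) → RO P} (hψ : BSet.Ext ψ) {a b : BSet (RO P)} (h : Fo c (BSet.beq a b)) (ha : Fo c (ψ a)) :
    Fo c (ψ b) := (fo_inf.2 ⟨h, ha⟩).of_le (hψ a b)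

theorem fo_beq_symm {a b : BSet (RO P)} (h : Fo c (BSet.beq a b)) : Fo c (BSet.beq b a) := by
  rwa [BSet.beq_symm]

theorem fo_beq_trans {a b d : BSet (RO P)} (h : Fo c (BSet.beq a b)) (h' : Fo c (BSet.beq b d)) : Fo c (BSet.beq a d) :=
  (fo_inf.2 ⟨h, h'⟩).of_le (BSet.beq_trans a b d)

theorem fo_beq_refl (a : BSet (RO P)) : Fo c (BSet.beq a a) := by
  rw [BSet.beq_refl]
  exact fo_top

/-- maximum principle below a condition -/
theorem exists_fo {ψ : BSet (RO P) → RO P} (hψ : BSet.Ext ψ) (h : Fo c (⨆ a, ψ a)) : ∃ a, Fo c (ψ a) := by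
  obtain ⟨x, hx⟩ := BSet.exists_max ψ hψ
  exact ⟨x, hx ▸ h⟩

end Pool.Agent.Lib.MP_011f3a_lc.LM

/-!
# The Boolean value of an event (module E-VAL)

`vle Ψ` is the regular open set of the conditions `c` with `FA c Ψ` (`FA_local`). `mtv b G`: the filter meets the regular open set `b`.
-/

namespace Pool.Agent.Lib.MP_011f3a_lc.LM

open Pool.Agent.Lib.MP_4d8715_gt.KR

variable {P : Type} [Preorder P] {c c' : P} {Ψ Ψ' : Flt P → Prop}

/-- the value of an event -/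
def vle (Ψ : Flt P → Prop) : RO P where
  carrier := {c | FA c Ψ}
  down := fun _ hp _ hq => FA.mono hp hq
  reg := fun _ h => FA_local h

/-- the filter meets `b` -/
def mtv (b : RO P) (G : Flt P) : Prop := mt b.carrier G

theorem fo_vle : Fo c (vle Ψ) ↔ FA c Ψ := Iff.rfl

theorem bpr_mtv (b : RO P) : BPr (mtv b) := BPr.mt b.carrier

theorem vle_mtv (b : RO P) : vle (mtv b) = b := by
  refine eq_iff_fo.2 fun c => ?_
  rw [fo_vle]
  constructor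
  · intro h
    refine fo_reg fun c' hc' => ?_
    obtain ⟨v, hv, a, ha, hva⟩ := (frc_of_FA h) c' hc'
    exact ⟨v, hv, b.down a ha v hva⟩
  · intro h
    exact FA.of_forall fun G hG => ⟨c, h, hG⟩

/-- below any condition: the filter meets `vle Ψ` iff `Ψ` -/
theorem mtv_vle (hb : BPr Ψ) (c : P) : FA c fun G => (mtv (vle Ψ) G ↔ Ψ G) := mt_FA_iff hb c

theorem vle_and : vle (fun G => Ψ G ∧ Ψ' G) = vle Ψ ⊓ vle Ψ' := by
  refine eq_iff_fo.2 fun c => ?_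
  rw [fo_inf, fo_vle, fo_vle, fo_vle]
  exact ⟨fun h => ⟨h.imp fun _ _ h => h.1, h.imp fun _ _ h => h.2⟩, fun h => h.1.and h.2⟩

theorem vle_not (hb : BPr Ψ) : vle (fun G => ¬ Ψ G) = (vle Ψ)ᶜ := by
  refine eq_iff_fo.2 fun c => ?_
  rw [fo_compl, fo_vle]
  constructor
  · intro h c' hc' h'
    exact FA.not_false ((h.mono hc').imp₂ (fo_vle.1 h') fun _ _ h1 h2 => h1 h2)
  · intro h
    refine hb.not.of_forall fun v hv h1 => h v hv (fo_vle.2 ?_)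
    exact h1.imp fun _ _ h2 => not_not.1 h2

theorem vle_imp (hb : BPr Ψ) (hb' : BPr Ψ') : vle (fun G => Ψ G → Ψ' G) = vle Ψ ⇨ vle Ψ' := by
  refine eq_iff_fo.2 fun c => ?_
  rw [fo_himp, fo_vle]
  constructor
  · intro h c' hc' h'
    exact fo_vle.2 ((h.mono hc').imp₂ (fo_vle.1 h') fun _ _ h1 h2 => h1 h2)
  · intro h
    refine (hb.imp hb').of_forall fun v hv h1 => ?_
    have h2 : FA v Ψ := h1.imp fun _ _ h3 => by
      by_contra h4
      exact h3 fun h5 => absurd h5 h4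
    have h3 : FA v Ψ' := fo_vle.1 (h v hv (fo_vle.2 h2))
    exact FA.not_false (h1.imp₂ h3 fun _ _ h4 h5 => h4 fun _ => h5)

theorem vle_iff (hb : BPr Ψ) (hb' : BPr Ψ') : vle (fun G => Ψ G ↔ Ψ' G) = iffB (vle Ψ) (vle Ψ') := by
  unfold iffB
  rw [← vle_imp hb hb', ← vle_imp hb' hb, ← vle_and]
  congr 1
  funext G
  exact propext iff_iff_implies_and_implies

theorem vle_all {ι : Type*} [Countable ι] {Ψ : ι → Flt P → Prop} : vle (fun G => ∀ i, Ψ i G) = ⨅ i, vle (Ψ i) := by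
  refine eq_iff_fo.2 fun c => ?_
  rw [fo_iInf, fo_vle]
  exact ⟨fun h i => fo_vle.2 (h.imp fun _ _ h => h i), fun h => FA.all fun i => fo_vle.1 (h i)⟩

theorem vle_ex {ι : Type*} [Countable ι] {Ψ : ι → Flt P → Prop} (h : ∀ i, BPr (Ψ i)) :
    vle (fun G => ∃ i, Ψ i G) = ⨆ i, vle (Ψ i) := by
  refine eq_iff_fo.2 fun c => ?_
  rw [fo_iSup, fo_vle]
  constructor
  · intro h1 c' hc'
    obtain ⟨v, hv, i, hi⟩ := FA.exists_of_BPr h (h1.mono hc')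
    exact ⟨v, hv, i, fo_vle.2 hi⟩
  · intro h1
    refine FA_local fun w' hw' => ?_
    obtain ⟨v, hv, i, hi⟩ := h1 w' hw'
    exact ⟨v, hv, (fo_vle.1 hi).imp fun _ _ h2 => ⟨i, h2⟩⟩

end Pool.Agent.Lib.MP_011f3a_lc.LM
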