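import Pool.Agent.Lib.MP_011f3a_lc.LM.E.Big
import Pool.Agent.Lib.MP_011f3a_lc.LM.H.DataB

/-! # The density argument (module H-DENS)

See the header of H/Main.lean. -/

namespace Pool.Agent.Lib.MP_011f3a_lc.LM

open Cardinal

variable {Ω : Type} [LinearOrder Ω] [WellFoundedLT Ω] {md : Md} {ζ ξ η τ δ β : Ω}

theorem main_density (h : Om2 τ) {In : Cn Ω md τ → (Flt (Cn Ω md τ) → Set ℕ) → Prop} {p : Cn Ω md τ} (hI : InH In p) :
    ∃ q ≤ p, ∃ C : Flt (Cn Ω md τ) → Set (List Bool × List Bool), (∀ z, BPr fun G => z ∈ C G) ∧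
      ∀ s ≤ q, ∀ y, BR y → ∃ s' ≤ s, ∃ x, BR x ∧ In s' x ∧ FA s' fun G => Ph (C G) (x G) (y G) := by
  obtain ⟨δ, hδ, d, hd⟩ := exists_dat h hI
  have hq0 : tr τ d.h ≤ p := by
    obtain ⟨ε, hε, hεs⟩ := h.cof p.supp p.supp_countable p.supp_lt
    obtain ⟨β, hβ, hεβ, hδβ, q', hq', x, _, _, htr, _⟩ := hd ε hε
    have h1 : tr τ (tr β p) = p := tr_tr_of_supp fun η hη => (hεs η hη).trans hεβ
    rw [← h1, ← tr_tr' d.h hδβ.le (ξ := τ), ← htr]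
    exact tr_mono (tr_mono hq' β) τ
  have hbT : BT fun G : Flt (Cn Ω md τ) => ev d.T (rs δ G) := bt_proj hδ.le (bt_ev _)
  refine ⟨tr τ d.h, hq0, fun G => cde (ev d.T (rs δ G)) (ev d.f (rs δ G)),
    fun z => bpr_cde hbT (fun z => BPr.proj hδ.le (BPr.mt (d.f z))) z, ?_⟩
  intro s hs y hy
  obtain ⟨s1, hs1, ε, hε, hBd, y', hy', hF1⟩ := exists_bd_real h s hy
  obtain ⟨β, hβ, hεβ, hδβ, q', hq', x, hx, hIn, htr, hNm, hT, hSC⟩ := hd ε hε
  have hu : tr β s1 ≤ tr β q' := by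
    rw [htr, ← tr_tr' d.h hδ.le (ξ := β)]
    exact tr_mono (hs1.trans hs) β
  obtain ⟨s2, k1, k2, k3, _⟩ := exists_join hβ.le q' (tr β s1) hu
  have hs2 : s2 ≤ s1 := by
    have h1 : tr τ (tr ε s1) = s1 := hBd
    rw [← h1]
    rw [le_tr_iff hε.le, ← tr_tr s2 hεβ.le, k1, tr_tr s1 hεβ.le]
  have hbC : BT fun G : Flt (Cn Ω md β) => Cd (ev (q'.co β) G) (y' (rs ε G)) :=
    bt_cd (bt_ev _) fun n => BPr.proj hεβ.le (hy' n)
  have hgood : FA (tr β s2) fun G => TC md (ev (q'.co β) G) ∧ Nm (ev (q'.co β) G) := by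
    rw [k1]
    exact ((q'.good β).and hNm).mono hu
  obtain ⟨s3, m1, m2, m3, _⟩ := exists_upd hβ s2 hbC (by
    rw [k2 β le_rfl]
    exact hgood.imp fun G _ h1 => ⟨cd_tc h1.1 h1.2 _, cd_subset h1.1⟩)
  refine ⟨s3, m1.trans (hs2.trans hs1), x, hx, hI.mono _ _ _ (m1.trans k3) hIn, ?_⟩
  have f1 : FA s3 fun G => gb β G ⊆ Cd (ev (q'.co β) (rs β G)) (y' (rs ε (rs β G))) := by
    refine gb_sub_of (T := fun G => Cd (ev (q'.co β) G) (y' (rs ε G))) hβ s3 ?_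
    rw [m3]
    exact (bt_ev_mkn hbC _).imp fun G _ h1 => h1.le
  have f2 : FA s3 fun G => TC md (ev (q'.co β) (rs β G)) ∧ Nm (ev (q'.co β) (rs β G)) := by
    refine FA.proj (Ψ := fun G => TC md (ev (q'.co β) G) ∧ Nm (ev (q'.co β) G)) hβ.le ?_
    rw [m2]
    exact hgood
  have f3 : FA s3 fun G => ev (q'.co β) (rs β G) = ev d.T (rs δ (rs β G)) := by
    refine FA.proj (Ψ := fun G => ev (q'.co β) G = ev d.T (rs δ G)) hβ.le ?_
    rw [m2, k1]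
    exact hT.mono hu
  have f4 := gb_branch hβ s3
  have f5 := hSC.mono (m1.trans k3)
  have f6 := hF1.mono (m1.trans hs2)
  refine FA.imp₂ ((f1.and f2).and f3) ((f4.and f5).and f6) fun G _ g1 g2 => ?_
  obtain ⟨⟨g1, g3⟩, g4⟩ := g1
  obtain ⟨⟨g5, g6⟩, g7⟩ := g2
  rw [rs_rs G hεβ.le hβ.le, ← g7] at g1
  rw [rs_rs G hδβ.le hβ.le] at g4
  rw [g4] at g1 g3
  exact ph_of_sc g3.1 g3.2 g5 g1 g6

end Pool.Agent.Lib.MP_011f3a_lc.LM

/-! # The continuous function, part 2 (module E-ONTOB)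

See the header of E/Onto.lean. `Z = domG X Y (psi C)`, `f = relG X Y (psi C)`; `CardC Z`: `cardC_of_image`. -/

namespace Pool.Agent.Lib.MP_011f3a_lc.LM

open Pool.Agent.Lib.MP_4d8715_gt.KR BSet Cardinal

variable {P : Type} [Preorder P] {c : P} {X Y : BSet (RO P)} {C : Flt P → Set (List Bool × List Bool)}

variable {Ω : Type} [LinearOrder Ω] [WellFoundedLT Ω] {md : Md} {τ : Ω}

theorem fo_AllMap (h : Om2 τ) (p : Cn Ω md τ) : Fo p (Lb.AllMap (omega : BSet (RO (Cn Ω md τ)))) := by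
  unfold Lb.AllMap
  rw [fo_iInf]
  intro X
  rw [fo_iInf]
  intro Y
  rw [fo_himp]
  intro p1 _ hX1
  rw [fo_himp]
  intro p2 hp2 hY1
  rw [fo_himp]
  intro p3 hp3 hX2
  rw [fo_himp]
  intro p4 hp4 hY2
  rw [fo_iSup]
  intro c hc
  have gX1 : Fo c (Lb.Points omega X) := hX1.mono (hc.trans (hp4.trans (hp3.trans hp2)))
  have gY1 : Fo c (Lb.Points omega Y) := hY1.mono (hc.trans (hp4.trans hp3))
  have gX2 : Fo c (Lb.CardC omega X) := hX2.mono (hc.trans hp4)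
  have gY2 : Fo c (Lb.CardC omega Y) := hY2.mono hc
  obtain ⟨q, hq, C, hC, hden⟩ := main_density h (inH_of_cardC h gX1 gX2)
  have hpt : ∀ c' ≤ q, ∀ b, Fo c' (bmem b Y) → Fo c' (bsub b omega) := by
    intro c' hc' b hb
    have h1 := gY1
    unfold Lb.Points at h1
    rw [fo_iInf] at h1
    exact fo_himp.1 (h1 b) c' (hc'.trans hq) hb
  have e1 : ∀ b, Ext fun a => psi C a b := fun b => ext_psi_left C b
  have e2 : ∀ a, Ext fun b => psi C a b := fun a => ext_psi_right C a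
  have hF : Fo q (Kb.FunTo (relG X Y (psi C)) (domG X Y (psi C)) Y) := by
    refine fo_FunTo_relG e1 e2 fun c' hc' a b b' _ hb hb' h1 h2 => ?_
    rw [fo_beq_iff (hpt c' hc' b hb) (hpt c' hc' b' hb')]
    exact FA.imp₂ (fo_vle.1 h1) (fo_vle.1 h2) fun G _ h3 h4 => ph_unique h3 h4
  have hI : Fo q (Lb.Image (relG X Y (psi C)) (domG X Y (psi C)) Y) := by
    refine fo_Image_relG e1 e2 fun c' hc' b _ => ?_
    obtain ⟨s, hs, x, hx, hxX, hPh⟩ := hden c' hc' (rn b) (br_rn b)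
    refine ⟨s, hs, rb x, hxX, fo_vle.2 ?_⟩
    refine FA.imp₂ hPh (rn_rb hx s) fun G _ h3 h4 => ?_
    rw [h4]
    exact h3
  refine ⟨q, hq, domG X Y (psi C), ?_⟩
  refine Fo.of_le ?_ (le_iSup _ (relG X Y (psi C)))
  rw [fo_inf, fo_inf, fo_inf, fo_inf]
  exact ⟨fo_sub_domG e1, cardC_of_image hF hI (gY2.mono hq), hF, fo_Cont hC, hI⟩

end Pool.Agent.Lib.MP_011f3a_lc.LM

/-!
# The Boolean value of the sentence (module E-MAIN)

`cardC_of_DenseC`: take `n = nat 0` and `Z = X` (agreement below `0` is trivial), `a = nat 0`. `fo_not_StrAvoid`: `AllMap` gives (below the condition) `Z`, `f`; `Image f Z Y`, so `StrAvoid` with `R = Y` says that `CardC Y` fails.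
-/

namespace Pool.Agent.Lib.MP_011f3a_lc.LM

open Pool.Agent.Lib.MP_4d8715_gt.KR BSet Cardinal

variable {P : Type} [Preorder P] {c : P} {X Y : BSet (RO P)}

theorem cardC_of_DenseC (h : Fo c (Lb.DenseC omega X)) : Fo c (Lb.Points omega X) ∧ Fo c (Lb.CardC omega X) := by
  unfold Lb.DenseC at h
  rw [fo_inf] at h
  refine ⟨h.1, ?_⟩
  have h1 := h.2
  rw [fo_iInf] at h1
  have h2 := h1 (nat 0)
  rw [fo_iInf] at h2
  have h3 := h2 (nat 0)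
  have h4 : Fo c (bmem (nat 0 : BSet (RO P)) omega) := by
    rw [bmem_nat_omega]
    exact fo_top
  have h5 : Fo c (Kb.Sub (nat 0 : BSet (RO P)) omega) := by
    unfold Kb.Sub
    rw [fo_iInf]
    intro z
    rw [fo_himp]
    intro c' _ hz
    have h6 : bmem z (nat 0 : BSet (RO P)) = ⊥ := bmem_empty z
    rw [h6] at hz
    exact absurd hz fo_bot
  rw [fo_himp] at h3
  have h6 := h3 c le_rfl h4
  rw [fo_himp] at h6
  have h7 := h6 c le_rfl h5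
  rw [fo_iInf] at h7
  have h8 := h7 X
  rw [fo_himp] at h8
  refine h8 c le_rfl ?_
  rw [fo_iInf]
  intro x
  rw [fo_iffB]
  intro c' _
  rw [fo_inf]
  refine ⟨fun hx => ⟨hx, ?_⟩, fun hx => hx.1⟩
  unfold Lb.Agree
  rw [fo_iInf]
  intro k
  rw [fo_himp]
  intro c'' _ hk
  have h9 : bmem k (nat 0 : BSet (RO P)) = ⊥ := bmem_empty k
  rw [h9] at hk
  exact absurd hk fo_bot

theorem fo_not_StrAvoid (hA : Fo c (Lb.AllMap (omega : BSet (RO P)))) (hX : Fo c (Lb.DenseC omega X)) (hY : Fo c (Lb.DenseC omega Y)) :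
    Fo c (Lb.StrAvoid omega X Y)ᶜ := by
  rw [fo_compl]
  intro c1 hc1 hS
  obtain ⟨hX1, hX2⟩ := cardC_of_DenseC (hX.mono hc1)
  obtain ⟨hY1, hY2⟩ := cardC_of_DenseC (hY.mono hc1)
  have h1 := hA.mono hc1
  unfold Lb.AllMap at h1
  have h2 := fo_iInf.1 (fo_iInf.1 h1 X) Y
  have h3 := fo_himp.1 (fo_himp.1 (fo_himp.1 (fo_himp.1 h2 c1 le_rfl hX1) c1 le_rfl hY1)
    c1 le_rfl hX2) c1 le_rfl hY2
  obtain ⟨c2, hc2, Z, h4⟩ := fo_iSup.1 h3 c1 le_rfl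
  obtain ⟨c3, hc3, f, h5⟩ := fo_iSup.1 h4 c2 le_rfl
  rw [fo_inf, fo_inf, fo_inf, fo_inf] at h5
  obtain ⟨g1, g2, g3, g4, g5⟩ := h5
  have h6 := hS.mono (hc3.trans hc2)
  unfold Lb.StrAvoid at h6
  have h7 := fo_iInf.1 (fo_iInf.1 (fo_iInf.1 h6 Z) f) Y
  have h8 := fo_himp.1 (fo_himp.1 (fo_himp.1 (fo_himp.1 (fo_himp.1 h7 c3 le_rfl g1) c3 le_rfl g2)
    c3 le_rfl g3) c3 le_rfl g4) c3 le_rfl g5
  exact fo_compl.1 h8 c3 le_rfl (hY2.mono (hc3.trans hc2))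

variable {Ω : Type} [LinearOrder Ω] [WellFoundedLT Ω] {md : Md} {τ : Ω}

theorem bv_NoAvoid (h : Om2 τ) : Fml.bv LF.fNoAvoid (![] : Fin 0 → BSet (RO (Cn Ω md τ))) = ⊤ := by
  rw [LF.bv_fNoAvoid, eq_top_iff_fo]
  intro c
  unfold Lb.NoAvoid
  refine Fo.of_le ?_ (le_iSup _ (omega : BSet (RO (Cn Ω md τ))))
  rw [fo_inf, fo_inf]
  refine ⟨?_, fo_AllMap h c, ?_⟩
  · rw [Kb.Omega_omega]
    exact fo_top
  · rw [fo_iInf]
    intro X
    rw [fo_iInf]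
    intro Y
    rw [fo_himp]
    intro c1 hc1 hX
    rw [fo_himp]
    intro c2 hc2 hY
    exact fo_not_StrAvoid (fo_AllMap h c2) (hX.mono hc2) hY

end Pool.Agent.Lib.MP_011f3a_lc.LM
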